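import Pool.Agent.TH30.MK.Pres

/-!
# The cone conjecture for finite quotients of products

A `Variety` records what enters the cone conjecture for a smooth projective variety `X` with
`K_X ≡ 0`: `N¹(X)_ℝ` with its lattice, the action of `Aut X`, the cone `Nef(X)^e`, and (its
existence) the degree form `D ↦ D · H^(dim X - 1)`. `Variety.Q1` is the statement of Q1 (parts (a)
and (b)) for `X`.

`result`: if `X = ∏ Xᵢ` (with `N¹(X) = ⊕ N¹(Xᵢ)`), if `Y = X/G` for a finite group `G` of
automorphisms of `X` (which may permute the factors), and if Q1 holds for all the factors `Xᵢ`, then
Q1 holds for `Y`. No hypothesis is made on the index of the covering, on `G`, or on the kind of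
varieties `Xᵢ`. By the Beauville-Bogomolov decomposition every smooth projective `Y` with
`K_Y ≡ 0` is such a quotient with `Xᵢ` abelian, irreducible holomorphic symplectic or strict
Calabi-Yau, so Q1 is reduced to strict Calabi-Yau manifolds.

The proof: (1) a Siegel property: only finitely many elements of the image of `Aut X` in
`GL(N¹(X))` move a point of the ample cone in a given rational polyhedral cone to another one
(the forms `ξ ∘ γ` which are minimal at a point of the cone are finitely many, by Dickson's lemma);
(2) for a point `x` of the invariant part of the ample cone, `x = a^* y` with `y` in the given cone,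
the homomorphism `g ↦ a⁻¹ g a` from `G` takes finitely many values modulo the kernel, and a
divisibility argument for the kernel shows that these homomorphisms form finitely many conjugacy
classes under the kernel, so that the centralizer of `G` acts with a rational polyhedral cone whose
translates cover the invariant ample cone; (3) averaging over `G`; (4) Looijenga's theorem (proved
here): covering the open cone by translates of a rational polyhedral cone gives a fundamental
domain on the cone spanned by its rational points.
-/

set_option autoImplicit false

namespace Pool.Agent.Results.MP_e49dc9_ag.ProductsAndQuotients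

open Pool.Agent.TH30.MK.Pres

/-- Q1 for the factors of a product implies Q1 for every quotient of the product by a finite group
of automorphisms; the condition `KerCond` on the kernel of the action on `N¹` holds in particular
whenever this kernel is finite. -/
theorem result :
    (∀ X : Variety, {a : X.A | Triv X.act a}.Finite → KerCond X.act) ∧
    ∀ (I : Type) [Fintype I] (F : I → Variety) (X : Variety), Variety.IsProduct F X →
      KerCond X.act → ∀ (G : Subgroup X.A) [Finite G] (Y : Variety), X.IsQuotient G Y →
      (∀ i, (F i).Q1) → Y.Q1 := by
  refine ⟨fun X hX => ⟨⊥, inferInstance, ?_, ⟨?_, ?_, ?_⟩, hX.toFinset, ?_⟩, ?_⟩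
  · intro d hd
    rw [Subgroup.mem_bot.1 hd]
    exact (X.triv_iff 1).2 (map_one _)
  · intro d hd d' hd'
    rw [Subgroup.mem_bot.1 hd, Subgroup.mem_bot.1 hd']
  · intro n _ d hd
    exact ⟨1, Subgroup.one_mem _, by rw [Subgroup.mem_bot.1 hd, one_pow]⟩
  · intro n _
    refine (Set.finite_singleton (1 : X.A)).subset ?_
    rintro d ⟨hd, -⟩
    exact Subgroup.mem_bot.1 hd
  · intro a ha
    exact ⟨a, hX.mem_toFinset.2 ha, 1, Subgroup.one_mem _, by rw [mul_one]⟩
  · intro I _ F X P hK G _ Y Q hF
    exact Variety.main F X P hK G Y Q hF

end Pool.Agent.Results.MP_e49dc9_ag.ProductsAndQuotients
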